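import Pool.Agent.Y817.PD.Stm

/-!
# Finite idempotent abelian algebras without proper nontrivial subalgebras
-/

set_option autoImplicit false

namespace Pool.Agent.Y809.PD

open Pool.Agent.Y817.PD

/-! ### Renaming the variables of terms -/

/-- renaming of the variables -/
def tmap {S : Sig} {V W : Type} (f : V → W) : Term S V → Term S W
  | .var v => .var (f v)
  | .app j t => .app j (fun l => tmap f (t l))

lemma eval_tmap {S : Sig} {V W A : Type} (F : Alg S A) (f : V → W) (x : W → A) (t : Term S V) :
    (tmap f t).eval F x = t.eval F (x ∘ f) := by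
  induction t with
  | var v => rfl
  | app j t ih =>
    show F j (fun l => (tmap f (t l)).eval F x) = F j (fun l => (t l).eval F (x ∘ f))
    congr 1
    funext l
    exact ih l

/-! ### Matrices -/

/-- the matrices `t(x,y), t(x,y'); t(x',y), t(x',y')` -/
inductive M {S : Sig} {B : Type} (F : Alg S B) : B → B → B → B → Prop
  | row (a b : B) : M F a a b b
  | col (a b : B) : M F a b a b
  | op (j : S.J) (p q r s : Fin (S.ar j) → B) (h : ∀ l, M F (p l) (q l) (r l) (s l)) :
      M F (F j p) (F j q) (F j r) (F j s)

section

variable {S : Sig} {B : Type} {F : Alg S B}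

lemma M.tr {p q r s : B} (h : M F p q r s) : M F p r q s := by
  induction h with
  | row a b => exact M.col a b
  | col a b => exact M.row a b
  | op j p q r s _ ih => exact M.op j p r q s ih

lemma M.fl {p q r s : B} (h : M F p q r s) : M F q p s r := by
  induction h with
  | row a b => exact M.row a b
  | col a b => exact M.col b a
  | op j p q r s _ ih => exact M.op j q p s r ih

lemma M.sw {p q r s : B} (h : M F p q r s) : M F r s p q := by
  induction h with
  | row a b => exact M.row b a
  | col a b => exact M.col a b
  | op j p q r s _ ih => exact M.op j r s p q ih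

lemma M.term {p q r s : B} (h : M F p q r s) : ∃ (V W : Type) (_ : Finite V) (_ : Finite W)
    (t : Term S (V ⊕ W)) (x x' : V → B) (y y' : W → B), p = t.eval F (Sum.elim x y) ∧
      q = t.eval F (Sum.elim x y') ∧ r = t.eval F (Sum.elim x' y) ∧
      s = t.eval F (Sum.elim x' y') := by
  induction h with
  | row a b =>
    exact ⟨Unit, Empty, inferInstance, inferInstance, .var (Sum.inl ()), fun _ => a, fun _ => b,
      Empty.elim, Empty.elim, rfl, rfl, rfl, rfl⟩
  | col a b =>
    exact ⟨Empty, Unit, inferInstance, inferInstance, .var (Sum.inr ()), Empty.elim, Empty.elim,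
      fun _ => a, fun _ => b, rfl, rfl, rfl, rfl⟩
  | op j p q r s _ ih =>
    choose V W fV fW t x x' y y' hp hq hr hs using ih
    have key : ∀ (X : ∀ l, V l → B) (Y : ∀ l, W l → B),
        (Term.app j (fun l => tmap (Sum.map (fun v => (⟨l, v⟩ : Σ l, V l))
          (fun w => (⟨l, w⟩ : Σ l, W l))) (t l))).eval F
          (Sum.elim (fun v => X v.1 v.2) (fun w => Y w.1 w.2)) =
        F j (fun l => (t l).eval F (Sum.elim (X l) (Y l))) := by
      intro X Y
      show F j (fun l => (tmap _ (t l)).eval F _) = _
      congr 1
      funext l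
      rw [eval_tmap]
      congr 1
      funext v
      cases v with
      | inl v => rfl
      | inr w => rfl
    refine ⟨Σ l, V l, Σ l, W l, inferInstance, inferInstance,
      Term.app j (fun l => tmap (Sum.map (fun v => (⟨l, v⟩ : Σ l, V l))
          (fun w => (⟨l, w⟩ : Σ l, W l))) (t l)), fun v => x v.1 v.2,
      fun v => x' v.1 v.2, fun w => y w.1 w.2, fun w => y' w.1 w.2, ?_, ?_, ?_, ?_⟩
    · rw [key]; congr 1; funext l; exact hp l
    · rw [key]; congr 1; funext l; exact hq l
    · rw [key]; congr 1; funext l; exact hr l
    · rw [key]; congr 1; funext l; exact hs l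

lemma M.tc (hA : Abelian F Set.univ) {p q r s : B} (h : M F p q r s) (hpq : p = q) : r = s := by
  obtain ⟨V, W, _, _, t, x, x', y, y', rfl, rfl, rfl, rfl⟩ := h.term
  exact hA V W t x x' y y' (fun _ => trivial) (fun _ => trivial) (fun _ => trivial)
    (fun _ => trivial) hpq

/-- one step -/
def R (F : Alg S B) (u v : B × B) : Prop := M F u.1 u.2 v.1 v.2

/-- the congruence generated by the rows -/
def D (F : Alg S B) (u v : B × B) : Prop := Relation.ReflTransGen (R F) u v

lemma D.refl (u : B × B) : D F u u := Relation.ReflTransGen.refl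

lemma D.trans {u v w : B × B} (h : D F u v) (h' : D F v w) : D F u w :=
  Relation.ReflTransGen.trans h h'

lemma D.symm {u v : B × B} (h : D F u v) : D F v u := by
  induction h with
  | refl => exact D.refl _
  | tail _ h ih => exact D.trans (Relation.ReflTransGen.single (M.sw h)) ih

lemma D.diag (a b : B) : D F (a, a) (b, b) := Relation.ReflTransGen.single (M.row a b)

lemma D.of {p q r s : B} (h : M F p q r s) : D F (p, q) (r, s) := Relation.ReflTransGen.single h

lemma D.fl {u v : B × B} (h : D F u v) : D F u.swap v.swap := by
  induction h with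
  | refl => exact D.refl _
  | tail _ h ih => exact D.trans ih (Relation.ReflTransGen.single (M.fl h))

lemma D.tc (hA : Abelian F Set.univ) {u v : B × B} (h : D F u v) (hu : u.1 = u.2) :
    v.1 = v.2 := by
  induction h with
  | refl => exact hu
  | tail _ h ih => exact M.tc hA h ih

lemma D.chain {u v : B × B} (h : D F u v) : ∃ (c : ℕ → B × B) (n : ℕ), c 0 = u ∧
    (∀ i, R F (c i) (c (i + 1))) ∧ ∀ i, n ≤ i → c i = v := by
  induction h with
  | refl => exact ⟨fun _ => u, 0, rfl, fun _ => M.col _ _, fun _ _ => rfl⟩
  | @tail v w _ h ih =>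
    obtain ⟨c, n, h0, h1, h2⟩ := ih
    refine ⟨fun i => if i ≤ n then c i else w, n + 1, by simpa using h0, fun i => ?_, fun i hi => ?_⟩
    · beta_reduce
      by_cases hi : i + 1 ≤ n
      · rw [if_pos (by omega), if_pos hi]
        exact h1 i
      · rw [if_neg hi]
        by_cases hi2 : i ≤ n
        · rw [if_pos hi2, h2 i (by omega)]
          exact h
        · rw [if_neg hi2]
          exact M.col _ _
    · show (if i ≤ n then c i else w) = w
      rw [if_neg (by omega)]

lemma D.op (j : S.J) {u v : Fin (S.ar j) → B × B} (h : ∀ l, D F (u l) (v l)) :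
    D F (F j fun l => (u l).1, F j fun l => (u l).2)
      (F j fun l => (v l).1, F j fun l => (v l).2) := by
  choose c n h0 h1 h2 using fun l => (h l).chain
  have h3 : ∀ i, D F (F j fun l => (c l 0).1, F j fun l => (c l 0).2)
      (F j fun l => (c l i).1, F j fun l => (c l i).2) := by
    intro i
    induction i with
    | zero => exact D.refl _
    | succ i ih =>
      exact ih.trans (D.of (M.op j _ _ _ _ fun l => h1 l i))
  have h4 := h3 (Finset.univ.sup n)
  have h5 : ∀ l, c l (Finset.univ.sup n) = v l := fun l =>
    h2 l _ (Finset.le_sup (Finset.mem_univ l))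
  simp only [h0, h5] at h4
  exact h4

end

/-! ### The classification -/

section cls

variable {S : Sig} {B : Type} {F : Alg S B} (hI : Idem F) (hA : Abelian F Set.univ)
  (hM : ∀ V : Set B, Closed F V → V.Subsingleton ∨ V = Set.univ)

include hI in
/-- `D.op` for rows with equal entries -/
lemma D.opl (j : S.J) {p r s : Fin (S.ar j) → B} {c : B} (h : ∀ l, D F (p l, c) (r l, s l)) :
    D F (F j p, c) (F j r, F j s) := by
  have := D.op j (u := fun l => (p l, c)) (v := fun l => (r l, s l)) h
  simp only [hI j c] at this
  exact this

include hM in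
lemma univ_of {V : Set B} (hV : Closed F V) {a b : B} (ha : a ∈ V) (hb : b ∈ V) (hab : a ≠ b)
    (x : B) : x ∈ V := by
  rcases hM V hV with h | h
  · exact absurd (h ha hb) hab
  · rw [h]; trivial

include hI hA hM

/-- (2) -/
lemma D.inj {a b c : B} (h : D F (a, c) (b, c)) : a = b := by
  by_contra hab
  have hV : Closed F {x | D F (x, c) (b, c)} := by
    intro j x hx
    have := D.opl hI j (r := fun _ => b) (s := fun _ => c) hx
    rw [hI, hI] at this
    exact this
  have h1 := univ_of hM hV (a := a) (b := b) h (D.refl _) hab c
  have h2 : b = c := D.tc hA h1 rfl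
  have h3 : a = c := D.tc hA (h1.trans h.symm) rfl
  exact hab (h3.trans h2.symm)

/-- some operation depends on an argument -/
lemma exists_dep [Nontrivial B] (j : S.J) : ∃ (l : Fin (S.ar j)) (x : Fin (S.ar j) → B) (b : B),
    F j (Function.update x l b) ≠ F j x := by
  by_contra hcon
  push Not at hcon
  obtain ⟨a, b, hab⟩ := exists_pair_ne B
  have key : ∀ (s : Finset (Fin (S.ar j))), F j (fun i => if i ∈ s then b else a) = a := by
    intro s
    induction s using Finset.induction_on with
    | empty => simpa using hI j a
    | insert l s hl ih =>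
      have h1 : (fun i => if i ∈ insert l s then b else a) =
          Function.update (fun i => if i ∈ s then b else a) l b := by
        funext i
        by_cases hi : i = l
        · subst hi
          simp
        · rw [Function.update_of_ne hi]
          simp [hi]
      rw [h1, hcon, ih]
  have h1 := key Finset.univ
  simp only [Finset.mem_univ, if_true] at h1
  rw [hI] at h1
  exact hab h1.symm

/-- CASE A -/
lemma case_a [Nontrivial B] (hc : ∀ c c' : B, c ≠ c' → ∀ a a', D F (a, c) (a', c') → a = c)
    (j : S.J) : ∃ l, ∀ x, F j x = x l := by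
  have h1 : ∀ p q r s, M F p q r s → (p = q ∧ r = s) ∨ (p = r ∧ q = s) := by
    intro p q r s h
    by_cases hqs : q = s
    · subst hqs
      exact Or.inr ⟨D.inj hI hA hM (D.of h), rfl⟩
    · have h2 := hc q s hqs p r (D.of h)
      exact Or.inl ⟨h2, M.tc hA h h2⟩
  obtain ⟨l, x, b, hx⟩ := exists_dep hI hA hM j
  have mat : ∀ (x y : Fin (S.ar j) → B), M F (F j x) (F j (Function.update y l (x l)))
      (F j (Function.update x l (y l))) (F j y) := by
    intro x y
    refine M.op j _ _ _ _ fun i => ?_
    by_cases hi : i = l
    · subst hi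
      rw [Function.update_self, Function.update_self]
      exact M.row _ _
    · rw [Function.update_of_ne hi, Function.update_of_ne hi]
      exact M.col _ _
  have h2 : ∀ z : Fin (S.ar j) → B, z l = x l → F j z = F j x := by
    intro z hz
    have h3 := mat x (Function.update z l b)
    rw [Function.update_self, Function.update_idem, ← hz, Function.update_eq_self] at h3
    rcases h1 _ _ _ _ h3 with h4 | h4
    · exact h4.1.symm
    · exact absurd h4.1.symm hx
  have h3 : F j x = x l := by
    rw [← h2 (fun _ => x l) rfl, hI]
  refine ⟨l, fun y => ?_⟩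
  have h4 := mat (Function.update (fun _ => y l) l (x l)) y
  have h5 : F j (Function.update (fun _ => y l) l (x l)) = x l := by
    rw [h2 _ (Function.update_self _ _ _), h3]
  rw [Function.update_self, Function.update_idem, h5, h2 _ (Function.update_self _ _ _), h3,
    Function.update_eq_self, hI] at h4
  exact (M.tc hA h4 rfl).symm

/-- CASE B, transport -/
lemma transport [Finite B] {c₀ c₁ : B} (hc : c₀ ≠ c₁) (h : ∀ a, ∃ a', D F (a, c₀) (a', c₁)) :
    ∀ a c c' : B, ∃ a', D F (a, c) (a', c') := by
  have h1 : ∀ c' a, ∃ a', D F (a, c₀) (a', c') := by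
    intro c'
    refine univ_of hM (V := {c' | ∀ a, ∃ a', D F (a, c₀) (a', c')}) ?_ (a := c₀) (b := c₁)
      (fun a => ⟨a, D.refl _⟩) h hc c'
    intro j x hx a
    choose a' ha' using fun l => hx l a
    refine ⟨F j a', ?_⟩
    have := D.opl hI j (p := fun _ => a) ha'
    rw [hI] at this
    exact this
  have h2 : ∀ c' a', ∃ a, D F (a, c₀) (a', c') := by
    intro c'
    choose f hf using h1 c'
    have hinj : Function.Injective f := by
      intro a b hab
      have h3 := hf b
      rw [← hab] at h3
      exact D.inj hI hA hM ((hf a).trans h3.symm)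
    have hsur := Finite.surjective_of_injective hinj
    intro a'
    obtain ⟨a, ha⟩ := hsur a'
    exact ⟨a, ha ▸ hf a⟩
  intro a c c'
  obtain ⟨b, hb⟩ := h2 c a
  obtain ⟨a', ha'⟩ := h1 c' b
  exact ⟨a', hb.symm.trans ha'⟩

/-- horizontal transitivity -/
lemma htrans {x y a a' c c' : B} (h : D F (x, a) (y, a')) (h' : D F (a, c) (a', c')) :
    D F (x, c) (y, c') := by
  by_cases hac : a = c
  · subst hac
    have : a' = c' := D.tc hA h' rfl
    subst this
    exact h
  have hV : Closed F {x | ∃ y, D F (x, a) (y, a') ∧ D F (x, c) (y, c')} := by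
    intro j x hx
    choose y h1 h2 using hx
    refine ⟨F j y, ?_, ?_⟩
    · have := D.opl hI j (s := fun _ => a') h1
      rw [hI] at this
      exact this
    · have := D.opl hI j (s := fun _ => c') h2
      rw [hI] at this
      exact this
  obtain ⟨y', h1, h2⟩ := univ_of hM hV (a := a) (b := c) ⟨a', D.diag _ _, h'⟩
    ⟨c', h'.fl, D.diag _ _⟩ hac x
  have : y' = y := D.inj hI hA hM (h1.symm.trans h)
  rw [← this]
  exact h2

theorem caseB [Finite B] [Nontrivial B] {c₀ c₁ : B} (hc : c₀ ≠ c₁)
    (h : ∀ a, ∃ a', D F (a, c₀) (a', c₁)) :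
    (∀ j, ∃ l, ∀ x, F j x = x l) ∨
    ∃ G : AddCommGroup B, ∀ (j : S.J) (x y : Fin (S.ar j) → B),
      F j (fun l => G.add (x l) (y l)) = G.add (F j x) (F j y) := by
  have T := transport hI hA hM hc h
  obtain ⟨o⟩ : Nonempty B := ⟨c₀⟩
  choose ad had using fun a b => T a o b
  have uniq : ∀ {a b x : B}, D F (a, o) (x, b) → x = ad a b := fun {a b x} hx =>
    D.inj hI hA hM (hx.symm.trans (had a b))
  have z1 : ∀ b, ad o b = b := fun b => (uniq (D.diag o b)).symm
  have z2 : ∀ a, ad a o = a := fun a => (uniq (D.refl _)).symm
  have hF : ∀ (j : S.J) (x y : Fin (S.ar j) → B),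
      F j (fun l => ad (x l) (y l)) = ad (F j x) (F j y) := by
    intro j x y
    refine uniq ?_
    exact D.opl hI j fun l => had (x l) (y l)
  choose ng hng using fun a => T o a o
  have inv : ∀ a, ad a (ng a) = o := fun a => (uniq (hng a).fl).symm
  have assoc : ∀ a b c, ad (ad a b) c = ad a (ad b c) := by
    intro a b c
    refine uniq ?_
    have h1 := had (ad a b) c
    have h2 := (had b c).fl
    exact (had a b).trans (htrans hI hA hM h1 h2)
  have split : ∀ (j : S.J) (l : Fin (S.ar j)) (x : Fin (S.ar j) → B),
      F j x = ad (F j (Function.update (fun _ => o) l (x l))) (F j (Function.update x l o)) := by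
    intro j l x
    rw [← hF]
    congr 1
    funext i
    by_cases hi : i = l
    · subst hi
      rw [Function.update_self, Function.update_self, z2]
    · rw [Function.update_of_ne hi, Function.update_of_ne hi, z1]
  by_cases hN : ∃ q r s, q ≠ o ∧ r ≠ o ∧ M F o q r s
  · right
    obtain ⟨q₀, r₀, s₀, hq, hr, hs⟩ := hN
    have h1 : ∀ q, ∃ s, M F o q r₀ s := by
      refine univ_of hM (V := {q | ∃ s, M F o q r₀ s}) ?_ (a := o) (b := q₀) ⟨r₀, M.row _ _⟩
        ⟨s₀, hs⟩ hq.symm
      intro j x hx
      choose s hs using hx
      refine ⟨F j s, ?_⟩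
      have := M.op j (fun _ => o) x (fun _ => r₀) s hs
      rw [hI, hI] at this
      exact this
    have h2 : ∀ q r, ∃ s, M F o q r s := by
      intro q
      refine univ_of hM (V := {r | ∃ s, M F o q r s}) ?_ (a := o) (b := r₀) ⟨q, M.col _ _⟩
        (h1 q) hr.symm
      intro j x hx
      choose s hs using hx
      refine ⟨F j s, ?_⟩
      have := M.op j (fun _ => o) (fun _ => q) x s hs
      rw [hI, hI] at this
      exact this
    have comm : ∀ a b, ad a b = ad b a := by
      intro a b
      obtain ⟨s, hs⟩ := h2 a b
      have h3 : s = ad a b := uniq (D.of hs).fl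
      have h4 : s = ad b a := uniq (D.of hs.tr).fl
      rw [← h3, ← h4]
    refine ⟨{ add := ad, add_assoc := assoc, zero := o, zero_add := z1, add_zero := z2,
              nsmul := @nsmulRec B ⟨o⟩ ⟨ad⟩, neg := ng,
              zsmul := @zsmulRec B ⟨o⟩ ⟨ad⟩ ⟨ng⟩ (@nsmulRec B ⟨o⟩ ⟨ad⟩),
              neg_add_cancel := fun a => (comm _ _).trans (inv a), add_comm := comm },
      fun j x y => hF j x y⟩
  · left
    push Not at hN
    intro j
    obtain ⟨l, b, hb⟩ : ∃ l b, F j (Function.update (fun _ => o) l b) ≠ o := by
      by_contra hcon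
      push Not at hcon
      obtain ⟨a, ha⟩ := exists_ne o
      have key : ∀ (s : Finset (Fin (S.ar j))), F j (fun i => if i ∈ s then o else a) = a := by
        intro s
        induction s using Finset.induction_on with
        | empty => simpa using hI j a
        | insert l s hl ih =>
          have h1 : (fun i => if i ∈ insert l s then o else a) =
              Function.update (fun i => if i ∈ s then o else a) l o := by
            funext i
            by_cases hi : i = l
            · subst hi
              simp
            · rw [Function.update_of_ne hi]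
              simp [hi]
          have h2 := split j l (fun i => if i ∈ s then o else a)
          rw [hcon, z1, ih] at h2
          rw [h1, ← h2]
      have h1 := key Finset.univ
      simp only [Finset.mem_univ, if_true] at h1
      rw [hI] at h1
      exact ha h1.symm
    have h1 : ∀ y : Fin (S.ar j) → B, F j (Function.update y l o) = o := by
      intro y
      by_contra hy
      refine hN _ _ (F j (Function.update y l b)) hy hb ?_
      have := M.op (F := F) j (fun _ => o) (Function.update y l o)
        (Function.update (fun _ => o) l b) (Function.update y l b) (by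
          intro i
          by_cases hi : i = l
          · subst hi
            rw [Function.update_self, Function.update_self, Function.update_self]
            exact M.row _ _
          · rw [Function.update_of_ne hi, Function.update_of_ne hi, Function.update_of_ne hi]
            exact M.col _ _)
      rw [hI] at this
      exact this
    have h2 : ∀ x, F j x = F j (Function.update (fun _ => o) l (x l)) := by
      intro x
      conv_lhs => rw [split j l x, h1, z2]
    refine ⟨l, fun x => ?_⟩
    have h3 := h2 (fun _ => x l)
    rw [hI] at h3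
    exact (h2 x).trans h3.symm

end cls

/-- StmClass -/
theorem t : Pool.Agent.Y817.PD.StmClass := by
  intro S B _ _ F hI hA hM
  by_cases hc : ∀ c c' : B, c ≠ c' → ∀ a a', D F (a, c) (a', c') → a = c
  · exact Or.inl fun j => case_a hI hA hM hc j
  · push Not at hc
    obtain ⟨c, c', hcc, a, a', h, hac⟩ := hc
    refine caseB hI hA hM hcc ?_
    refine univ_of hM (V := {a | ∃ a', D F (a, c) (a', c')}) ?_ (a := a) (b := c) ⟨a', h⟩
      ⟨c', D.diag _ _⟩ hac
    intro j x hx
    choose y hy using hx
    refine ⟨F j y, ?_⟩
    have := D.opl hI j (s := fun _ => c') hy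
    rw [hI] at this
    exact this

end Pool.Agent.Y809.PD
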